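import Mathlib

set_option autoImplicit false

namespace Pool.Agent.Results.MP_b2f6ce_nt.LogBoundFails

/-- The set of solutions `(a, q, p)` in integers, `a ≥ 1`, `q ≥ 1`, `p ≥ 0`, of
`n = 2 p q a + a q + q + p`. -/
def solutions (n : ℕ) : Set (ℤ × ℤ × ℤ) :=
  {t | 1 ≤ t.1 ∧ 1 ≤ t.2.1 ∧ 0 ≤ t.2.2 ∧
    (n : ℤ) = 2 * t.2.2 * t.2.1 * t.1 + t.1 * t.2.1 + t.2.1 + t.2.2}

/-- `a_n = N(n) + 1`, where `N(n)` is the number of solutions. -/
noncomputable def aSeq (n : ℕ) : ℕ := (solutions n).ncard + 1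

/-- The eight solutions for `n = 99577`, written as `(a, q, p)`. -/
def solList : List (ℕ × ℕ × ℕ) :=
  [(99576, 1, 0), (1, 24894, 1), (307, 108, 1), (1229, 27, 1), (655, 8, 9), (4, 314, 39),
    (17, 30, 97), (9, 6, 913)]

/-- Bounded universal quantifier over `k < b`, as a Boolean. -/
def allB (f : ℕ → Bool) (b : ℕ) : Bool := Nat.rec true (fun k ih => f k && ih) b

theorem allB_spec (f : ℕ → Bool) (b : ℕ) (h : allB f b = true) : ∀ k < b, f k = true := by
  induction b with
  | zero => intro k hk; omega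
  | succ b ih =>
    have h' : (f b && allB f b) = true := h
    rw [Bool.and_eq_true] at h'
    intro k hk
    rcases Nat.lt_succ_iff_lt_or_eq.mp hk with h1 | h1
    · exact ih h'.2 k h1
    · rw [h1]; exact h'.1

def inList (a q p : ℕ) : Bool := solList.any (fun t => t.1 == a && (t.2.1 == q && t.2.2 == p))

def chk1 (p q : ℕ) : Bool :=
  bif Nat.beq ((99577 - p) % (q + 1)) 0 then
    bif Nat.beq (((99577 - p) / (q + 1)) % (2 * p + 1)) (1 % (2 * p + 1)) then
      inList (((99577 - p) / (q + 1) - 1) / (2 * p + 1)) (q + 1) p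
    else true
  else true

def chk2 (p a : ℕ) : Bool :=
  bif Nat.beq ((99577 - p) % ((a + 1) * (2 * p + 1) + 1)) 0 then
    inList (a + 1) ((99577 - p) / ((a + 1) * (2 * p + 1) + 1)) p
  else true

def chk3 (q a : ℕ) : Bool :=
  bif Nat.beq ((99577 - (q + 1) * (a + 2)) % (2 * (q + 1) * (a + 1) + 1)) 0 then
    inList (a + 1) (q + 1) ((99577 - (q + 1) * (a + 2)) / (2 * (q + 1) * (a + 1) + 1))
  else true

theorem run1 : allB (fun p => allB (chk1 p) 315) 223 = true := by decide +kernel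

theorem run2 : allB (fun p => allB (chk2 p) (314 / (2 * p + 1))) 158 = true := by decide +kernel

theorem run3 : allB (fun q => allB (chk3 q) (222 / (q + 1))) 222 = true := by decide +kernel

theorem key (a q p : ℕ) (ha : 1 ≤ a) (hq : 1 ≤ q)
    (h : 99577 = 2 * p * q * a + a * q + q + p) : inList a q p = true := by
  obtain ⟨a, rfl⟩ : ∃ a', a = a' + 1 := ⟨a - 1, by omega⟩
  obtain ⟨q, rfl⟩ : ∃ q', q = q' + 1 := ⟨q - 1, by omega⟩
  set d := (a + 1) * (2 * p + 1) + 1 with hd
  have hqd : 99577 - p = (q + 1) * d := by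
    have : 99577 = (q + 1) * d + p := by rw [h, hd]; ring
    omega
  have hdiv : (99577 - p) / (q + 1) = d := by
    rw [hqd]; exact Nat.mul_div_cancel_left _ (Nat.succ_pos _)
  have hdiv' : (99577 - p) / d = q + 1 := by
    rw [hqd]; exact Nat.mul_div_cancel _ (by omega)
  -- first region
  have reg1 : p < 223 → q < 315 → inList (a + 1) (q + 1) p = true := by
    intro hp hq'
    have h1 := allB_spec _ _ (allB_spec _ _ run1 p hp) q hq'
    unfold chk1 at h1
    have e1 : (99577 - p) % (q + 1) = 0 := by rw [hqd]; exact Nat.mul_mod_right _ _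
    have e2 : d % (2 * p + 1) = 1 % (2 * p + 1) := by
      rw [hd, Nat.add_mod, Nat.mul_mod_left]; simp
    have e3 : (d - 1) / (2 * p + 1) = a + 1 := by
      rw [hd, Nat.add_sub_cancel]; exact Nat.mul_div_cancel _ (Nat.succ_pos _)
    rw [e1, hdiv, e2, e3] at h1
    simpa using h1
  have reg2 : (a + 1) * (2 * p + 1) < 315 → inList (a + 1) (q + 1) p = true := by
    intro hlt
    have hp : p < 158 := by nlinarith
    have ha' : a < 314 / (2 * p + 1) := by
      have : a + 1 ≤ 314 / (2 * p + 1) := by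
        rw [Nat.le_div_iff_mul_le (by omega : 0 < 2 * p + 1)]; omega
      omega
    have h1 := allB_spec _ _ (allB_spec _ _ run2 p hp) a ha'
    unfold chk2 at h1
    rw [← hd] at h1
    have e1 : (99577 - p) % d = 0 := by rw [hqd]; exact Nat.mul_mod_left _ _
    rw [e1, hdiv'] at h1
    simpa using h1
  have reg3 : (q + 1) * (a + 1) ≤ 222 → inList (a + 1) (q + 1) p = true := by
    intro hle
    have hq' : q < 222 := by nlinarith
    have ha' : a < 222 / (q + 1) := by
      have : a + 1 ≤ 222 / (q + 1) := by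
        rw [Nat.le_div_iff_mul_le (by omega : 0 < q + 1)]; linarith [mul_comm (q + 1) (a + 1)]
      omega
    have h1 := allB_spec _ _ (allB_spec _ _ run3 q hq') a ha'
    unfold chk3 at h1
    have e0 : 99577 - (q + 1) * (a + 2) = (2 * (q + 1) * (a + 1) + 1) * p := by
      have : 99577 = (2 * (q + 1) * (a + 1) + 1) * p + (q + 1) * (a + 2) := by
        rw [h]; ring
      omega
    rw [e0, Nat.mul_mod_right, Nat.mul_div_cancel_left _ (Nat.succ_pos _)] at h1
    simpa using h1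
  have hle0 : (q + 1) * d ≤ 99577 := by omega
  rcases lt_or_ge p (q + 1) with hpq | hpq
  · -- p < q + 1, so p < 223
    have hp : p < 223 := by
      by_contra hcon
      have h1 : 2 * p + 2 ≤ d := by
        have : 1 * (2 * p + 1) ≤ (a + 1) * (2 * p + 1) :=
          Nat.mul_le_mul_right _ (by omega)
        omega
      have h2 : (p + 1) * (2 * p + 2) ≤ (q + 1) * d := Nat.mul_le_mul (by omega) h1
      have h3 : 224 * 448 ≤ (p + 1) * (2 * p + 2) := Nat.mul_le_mul (by omega) (by omega)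
      omega
    rcases lt_or_ge q 315 with hq' | hq'
    · exact reg1 hp hq'
    · apply reg2
      by_contra hcon
      have h2 : 316 * 316 ≤ (q + 1) * d := Nat.mul_le_mul (by omega) (by omega)
      omega
  · rcases lt_or_ge p 223 with hp | hp
    · exact reg1 hp (by omega)
    · apply reg3
      by_contra hcon
      have h2 : 447 * (2 * 223 + 1) ≤ (2 * p + 1) * (2 * ((q + 1) * (a + 1)) + 1) :=
        Nat.mul_le_mul (by omega) (by omega)
      have h3 : (2 * p + 1) * (2 * ((q + 1) * (a + 1)) + 1) + 2 * (q + 1) = 2 * 99577 + 1 := by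
        conv_rhs => rw [h]
        ring
      omega

/-- The eight solutions as a finite set of integer triples. -/
def solFinset : Finset (ℤ × ℤ × ℤ) :=
  {(99576, 1, 0), (1, 24894, 1), (307, 108, 1), (1229, 27, 1), (655, 8, 9), (4, 314, 39),
    (17, 30, 97), (9, 6, 913)}

theorem mem_solutions (n : ℕ) (a q p : ℤ) : (a, q, p) ∈ solutions n ↔
    1 ≤ a ∧ 1 ≤ q ∧ 0 ≤ p ∧ (n : ℤ) = 2 * p * q * a + a * q + q + p := Iff.rfl

theorem solutions_eq : solutions 99577 = (solFinset : Set (ℤ × ℤ × ℤ)) := by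
  ext ⟨a, q, p⟩
  rw [mem_solutions, Finset.mem_coe]
  simp only [solFinset, Finset.mem_insert, Finset.mem_singleton, Prod.mk.injEq]
  constructor
  · rintro ⟨ha, hq, hp, h⟩
    lift a to ℕ using (by omega)
    lift q to ℕ using (by omega)
    lift p to ℕ using hp
    have h' : 99577 = 2 * p * q * a + a * q + q + p := by exact_mod_cast h
    have hk := key a q p (by omega) (by omega) h'
    clear h h' ha hq
    simp only [inList, solList, List.any_cons, List.any_nil, Bool.or_false, Bool.or_eq_true,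
      Bool.and_eq_true, beq_iff_eq] at hk
    rcases hk with ⟨rfl, rfl, rfl⟩ | ⟨rfl, rfl, rfl⟩ | ⟨rfl, rfl, rfl⟩ | ⟨rfl, rfl, rfl⟩ |
      ⟨rfl, rfl, rfl⟩ | ⟨rfl, rfl, rfl⟩ | ⟨rfl, rfl, rfl⟩ | ⟨rfl, rfl, rfl⟩ <;> norm_num
  · rintro (⟨rfl, rfl, rfl⟩ | ⟨rfl, rfl, rfl⟩ | ⟨rfl, rfl, rfl⟩ | ⟨rfl, rfl, rfl⟩ |
      ⟨rfl, rfl, rfl⟩ | ⟨rfl, rfl, rfl⟩ | ⟨rfl, rfl, rfl⟩ | ⟨rfl, rfl, rfl⟩) <;>
    (refine ⟨by norm_num, by norm_num, by norm_num, by norm_num⟩)

theorem aSeq_eq : aSeq 99577 = 9 := by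
  rw [aSeq, solutions_eq, Set.ncard_coe_finset]
  decide

theorem log_ge : (11 : ℝ) ≤ Real.log (99577 : ℕ) := by
  rw [Real.le_log_iff_exp_le (by norm_num)]
  have h1 : Real.exp 1 < 2.7182818286 := Real.exp_one_lt_d9
  have h2 : Real.exp 11 = Real.exp 1 ^ 11 := by
    rw [← Real.exp_nat_mul]; norm_num
  rw [h2]
  calc Real.exp 1 ^ 11 ≤ 2.7182818286 ^ 11 := by
        exact pow_le_pow_left₀ (Real.exp_pos _).le h1.le _
    _ ≤ ((99577 : ℕ) : ℝ) := by norm_num

/-- Question Q2 has a negative answer: it is not true that `a_n ≥ ⌊log n⌋ - 1` for all `n ≥ 1`. -/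
theorem result : ∃ n : ℕ, 1 ≤ n ∧ (solutions n).Finite ∧
    (aSeq n : ℤ) ≤ ⌊Real.log (n : ℝ)⌋ - 2 := by
  refine ⟨99577, by norm_num, ?_, ?_⟩
  · rw [solutions_eq]; exact Finset.finite_toSet _
  · rw [aSeq_eq]
    have : (11 : ℤ) ≤ ⌊Real.log ((99577 : ℕ) : ℝ)⌋ := Int.le_floor.mpr (by exact_mod_cast log_ge)
    push_cast at this ⊢
    omega

end Pool.Agent.Results.MP_b2f6ce_nt.LogBoundFails
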